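import Pool.Agent.Lib.MP_6e5bed_ag_SP.Final

set_option autoImplicit false

/-!
# Kimura-finiteness of noncommutative Chow motives and extensions of the base field

Let `K` be an extension of the field `k`, let `A` be a smooth proper dg algebra over `k` and let
`A'` be its extension of scalars to `K`. Then `A'` is smooth and proper over `K`, and the
noncommutative Chow motive of `A'` over `K` is Kimura-finite if and only if the noncommutative Chow
motive of `A` over `k` is.
-/

namespace Pool.Agent.MP_6e5bed_ag_OLD.BaseChange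

open CategoryTheory MonoidalCategory Pool.Agent.MP_6e5bed_ag Pool.Agent.MP_6e5bed_ag_SP

universe u

theorem result (k K : Type u) [Field k] [Field K] [Algebra k K] : HasModel k ∧ HasModel K ∧
    ∀ (A A' : Type u) [Ring A] [Algebra k A] [Ring A'] [Algebra k A'] [Algebra K A']
      [IsScalarTower k K A'] (X : DG k A) (X' : DG K A') (i : A →ₐ[k] A'), IsBc X X' i →
      ∀ hX : SmPr X, ∃ hX' : SmPr X',
      ∀ (C : Type (u + 1)) [Category.{u + 1} C] [MonoidalCategory C] [SymmetricCategory C]
        [Preadditive C] [MonoidalPreadditive C] [Linear ℚ C] (H : NCMot k C)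
        (C' : Type (u + 1)) [Category.{u + 1} C'] [MonoidalCategory C'] [SymmetricCategory C']
        [Preadditive C'] [MonoidalPreadditive C'] [Linear ℚ C'] (H' : NCMot K C'),
        KimuraFinite (H'.U X' hX') ↔ KimuraFinite (H.U X hX) :=
  ⟨hasModel k, hasModel K, fun _ _ _ _ _ _ _ _ _ _ _ hi hX => ⟨hi.smPr hX,
    fun _ _ _ _ _ _ _ H _ _ _ _ _ _ _ H' => kimuraFinite_bc H H' hX (hi.smPr hX) hi⟩⟩

end Pool.Agent.MP_6e5bed_ag_OLD.BaseChange
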