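import Pool.Agent.Lib.MP_6e5bed_ag.Core

set_option autoImplicit false

/-!
# Galois descent for Kimura-finiteness

`C` and `D` are `ℚ`-linear symmetric monoidal categories, `C` is idempotent complete, `F : C ⥤ D`
is a faithful symmetric monoidal functor, and a group acts, with finite orbits, on the spaces
`Hom (F X) (F Y)`, compatibly with composition and tensor products, with the image of
`Hom X Y` as the set of fixed morphisms. This is the formal situation of the base change of
noncommutative Chow motives from a field `k` to a Galois extension or to an algebraic closure.
-/

namespace Pool.Agent.MP_6e5bed_ag_OLD.GaloisDescent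

open CategoryTheory MonoidalCategory Pool.Agent.MP_6e5bed_ag

universe v u v' u'

theorem result {C : Type u} [Category.{v} C] [MonoidalCategory C] [SymmetricCategory C]
    [Preadditive C] [Linear ℚ C] [MonoidalPreadditive C] [IsIdempotentComplete C]
    {D : Type u'} [Category.{v'} D] [MonoidalCategory D] [SymmetricCategory D]
    [Preadditive D] [Linear ℚ D] [MonoidalPreadditive D]
    {F : C ⥤ D} [F.Braided] [F.Additive] [F.Faithful]
    {Γ : Type} [Group Γ] (G : FAction F Γ) {M M' : C} [ExactPairing M' M] :
    KimuraFinite (F.obj M) ↔ KimuraFinite M :=
  kimuraFinite_iff_of_action G (M' := M')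

end Pool.Agent.MP_6e5bed_ag_OLD.GaloisDescent
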