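import Pool.Agent.Lib.MP_6e5bed_ag_SP.Final

set_option autoImplicit false

/-!
# Kimura-finiteness of the generic fibre of a family

Let `R` be a domain with fraction field `F`, and let `A` be a smooth proper dg algebra over `R`.
The extensions of scalars `A ⊗ L` of `A` to fields `L` over `R` are smooth and proper over `L`. If
the noncommutative Chow motive of the generic fibre `A ⊗ F` is Kimura-finite, then there is a
nonzero element `f` of `R` such that for every field `L` over `R` in which `f` is not zero, the
noncommutative Chow motive of the fibre `A ⊗ L` over `L` is Kimura-finite.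
-/

namespace Pool.Agent.MP_6e5bed_ag_OLD.GenericFibre

open CategoryTheory MonoidalCategory Pool.Agent.MP_6e5bed_ag Pool.Agent.MP_6e5bed_ag_SP

universe u

theorem result : (∀ (k : Type u) [Field k], HasModel k) ∧
    ∀ (R : Type u) [CommRing R] [IsDomain R] (A : Type u) [Ring A] [Algebra R A] (X : DG R A),
      SmPr X → ∀ (A' : Type u) [Ring A'] [Algebra R A'] [Algebra (FractionRing R) A']
      [IsScalarTower R (FractionRing R) A'] (X' : DG (FractionRing R) A') (i : A →ₐ[R] A'),
      IsBc X X' i → ∃ hX' : SmPr X',
      ∀ (C : Type (u + 1)) [Category.{u + 1} C] [MonoidalCategory C] [SymmetricCategory C]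
      [Preadditive C] [MonoidalPreadditive C] [Linear ℚ C] (H : NCMot (FractionRing R) C),
      KimuraFinite (H.U X' hX') → ∃ f : R, f ≠ 0 ∧ ∀ (L : Type u) [Field L] [Algebra R L],
        algebraMap R L f ≠ 0 → ∀ (B : Type u) [Ring B] [Algebra R B] [Algebra L B]
          [IsScalarTower R L B] (Y : DG L B) (j : A →ₐ[R] B), IsBc X Y j → ∃ hY : SmPr Y,
          ∀ (D : Type (u + 1)) [Category.{u + 1} D] [MonoidalCategory D] [SymmetricCategory D]
          [Preadditive D] [MonoidalPreadditive D] [Linear ℚ D] (H' : NCMot L D),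
          KimuraFinite (H'.U Y hY) :=
  ⟨fun k _ => hasModel k, fun _ _ _ _ _ _ _ hX _ _ _ _ _ _ _ hi => ⟨hi.smPr hX,
    fun _ _ _ _ _ _ _ H h => kimuraFinite_generic hX (hi.smPr hX) hi H h⟩⟩

end Pool.Agent.MP_6e5bed_ag_OLD.GenericFibre
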