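import Pool.Agent.Lib.MP_6e5bed_ag_SP.Final

set_option autoImplicit false

/-!
# Tensor cancellation for the Kimura-finiteness of noncommutative Chow motives

Let `k` be a field. The category of noncommutative Chow motives over `k` with rational
coefficients exists, and if `M`, `N` are objects of it such that `M ⊗ N` is not zero and
Kimura-finite, then `M` and `N` are Kimura-finite.
-/

namespace Pool.Agent.Lib.MP_6e5bed_ag_OLD.NChowCancellation

open CategoryTheory MonoidalCategory Pool.Agent.MP_6e5bed_ag Pool.Agent.MP_6e5bed_ag_SP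

universe u

theorem result (k : Type u) [Field k] : HasModel k ∧
    ∀ (C : Type (u + 1)) [Category.{u + 1} C] [MonoidalCategory C] [SymmetricCategory C]
      [Preadditive C] [MonoidalPreadditive C] [Linear ℚ C], NCMot k C → ∀ M N : C,
      ¬ Limits.IsZero (M ⊗ N) → KimuraFinite (M ⊗ N) → KimuraFinite M ∧ KimuraFinite N :=
  ⟨hasModel k, fun _ _ _ _ _ _ _ H _ _ h0 h => H.cancellation h0 h⟩

end Pool.Agent.Lib.MP_6e5bed_ag_OLD.NChowCancellation
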