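import Pool.Agent.Lib.MP_6e5bed_ag_SP.Final

set_option autoImplicit false

/-!
# Schur functors and the Kimura-finiteness of noncommutative Chow motives

Let `k` be a field. The category of noncommutative Chow motives over `k` with rational
coefficients exists. If `M` is an object of it, `n > 0`, and `B` is the image of an element `z` of
the group algebra `ℚ[S_n]` (for example of a Young symmetrizer) acting on `M^{⊗n}`, such that `B`
is not zero and Kimura-finite, then `M` is Kimura-finite.
-/

namespace Pool.Agent.Lib.MP_6e5bed_ag_OLD.NChowSchur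

open CategoryTheory MonoidalCategory Pool.Agent.MP_6e5bed_ag Pool.Agent.MP_6e5bed_ag_SP

universe u

theorem result (k : Type u) [Field k] : HasModel k ∧
    ∀ (C : Type (u + 1)) [Category.{u + 1} C] [MonoidalCategory C] [SymmetricCategory C]
      [Preadditive C] [MonoidalPreadditive C] [Linear ℚ C], NCMot k C → ∀ (M B : C) (n : ℕ)
      (z : MonoidAlgebra ℚ (Equiv.Perm (Fin n))) (i : B ⟶ tpow M n) (r : tpow M n ⟶ B), 0 < n →
      i ≫ r = 𝟙 B → r ≫ i = za M z → ¬ Limits.IsZero B → KimuraFinite B → KimuraFinite M :=
  ⟨hasModel k, fun _ _ _ _ _ _ _ H _ _ _ z i r hn hir hri h0 h => H.schur hn z i r hir hri h0 h⟩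

end Pool.Agent.Lib.MP_6e5bed_ag_OLD.NChowSchur
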