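import Pool.Agent.Lib.MP_6e5bed_ag.Core

set_option autoImplicit false

/-!
# Kimura-finiteness is reflected by functors of orbit category type

`C` and `D` are `ℚ`-linear symmetric monoidal categories, `C` is idempotent complete, `F : C ⥤ D`
is a faithful `ℚ`-linear symmetric monoidal functor, and `T` is a tensor-invertible object of `C`
with `F T ≅ 𝟙`, such that `Hom (F X) (F Y)` is the direct sum over `n : ℤ` of the spaces of the
morphisms that come from `X ⟶ Y ⊗ T^n` (from `X ⊗ T^(-n) ⟶ Y` if `n < 0`). This is the formal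
situation of Chow motives and noncommutative Chow motives, `T` being the Tate object.
-/

namespace Pool.Agent.Results.MP_6e5bed_ag.OrbitComparison

open CategoryTheory MonoidalCategory Pool.Agent.MP_6e5bed_ag

universe v u v' u'

theorem result {C : Type u} [Category.{v} C] [MonoidalCategory C] [SymmetricCategory C]
    [Preadditive C] [Linear ℚ C] [MonoidalPreadditive C] [MonoidalLinear ℚ C]
    [IsIdempotentComplete C]
    {D : Type u'} [Category.{v'} D] [MonoidalCategory D] [SymmetricCategory D]
    [Preadditive D] [Linear ℚ D] [MonoidalPreadditive D] [MonoidalLinear ℚ D]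
    (F : C ⥤ D) [F.Braided] [F.Additive] [F.Linear ℚ] [F.Faithful]
    {T : C} (hT : ∃ T' : C, Nonempty (T ⊗ T' ≅ 𝟙_ C)) (τ : F.obj T ≅ 𝟙_ D)
    (hdeg : ∀ X Y : C, DirectSum.IsInternal (degPart F τ X Y))
    {M M' : C} [ExactPairing M' M] :
    KimuraFinite (F.obj M) ↔ KimuraFinite M :=
  kimuraFinite_iff_of_tate F τ hT hdeg (M' := M')

end Pool.Agent.Results.MP_6e5bed_ag.OrbitComparison
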