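import Pool.Agent.Lib.MP_6e5bed_ag.SDualRetract

set_option autoImplicit false

/-!
# Schur functors detect Kimura-finiteness

`C` is a `ℚ`-linear symmetric monoidal category, idempotent complete, in which every endomorphism
of the unit is a rational multiple of the identity; `M` is an object with a dual, `n > 0`, `z` an
element of the group algebra of the symmetric group and `B` the image of `z` on `M^{⊗ n}`, for
instance a symmetric or an exterior power, or a Schur functor of `M`. If `B` is not zero and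
Kimura-finite, then `M` is Kimura-finite.
-/

namespace Pool.Agent.MP_6e5bed_ag_OLD.SchurFunctors

open CategoryTheory MonoidalCategory Pool.Agent.MP_6e5bed_ag

universe v u

theorem result {C : Type u} [Category.{v} C] [MonoidalCategory C] [SymmetricCategory C]
    [Preadditive C] [Linear ℚ C] [MonoidalPreadditive C] [IsIdempotentComplete C]
    (hunit : ∀ a : 𝟙_ C ⟶ 𝟙_ C, ∃ c : ℚ, a = c • 𝟙 (𝟙_ C))
    {M M' B : C} [ExactPairing M' M] {n : ℕ} (hn : 0 < n)
    (z : MonoidAlgebra ℚ (Equiv.Perm (Fin n))) (i : B ⟶ tpow M n) (r : tpow M n ⟶ B)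
    (hir : i ≫ r = 𝟙 B) (hri : r ≫ i = za M z) (h0 : ¬ Limits.IsZero B)
    (h : KimuraFinite B) : KimuraFinite M := by
  let _ : HasLeftDual M := ⟨M'⟩
  have hB : 𝟙 B ≠ 0 := fun h1 => h0 ((Limits.IsZero.iff_id_eq_zero _).2 h1)
  have hne : 𝟙 (𝟙_ C) ≠ 0 := by
    intro h1
    apply hB
    have h2 : 𝟙 (𝟙_ C ⊗ B) = 0 := by
      rw [← id_tensorHom_id, h1, MonoidalPreadditive.zero_tensor]
    rw [← cancel_epi (λ_ B).hom, Category.comp_id, Limits.comp_zero,
      ← Category.id_comp (λ_ B).hom, h2, Limits.zero_comp]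
  have _ : RatUnit C := ⟨hunit, hne⟩
  exact kimuraFinite_of_opKF (opKF_of_schur_dual hn z i r hir hri (opKF_of_kimuraFinite h) hB)

end Pool.Agent.MP_6e5bed_ag_OLD.SchurFunctors
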