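import Pool.Agent.Lib.MP_6e5bed_ag.T10

set_option autoImplicit false

/-!
# Tensor cancellation for Kimura-finiteness

`C` is a `ℚ`-linear symmetric monoidal category, idempotent complete, in which every endomorphism
of the unit is a rational multiple of the identity; `M` and `N` are objects with duals whose
tensor product is not zero. If `M ⊗ N` is Kimura-finite, then `M` and `N` are Kimura-finite.
-/

namespace Pool.Agent.MP_6e5bed_ag_OLD.TensorCancellation

open CategoryTheory MonoidalCategory Pool.Agent.MP_6e5bed_ag

universe v u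

theorem result {C : Type u} [Category.{v} C] [MonoidalCategory C] [SymmetricCategory C]
    [Preadditive C] [Linear ℚ C] [MonoidalPreadditive C] [IsIdempotentComplete C]
    (hunit : ∀ a : 𝟙_ C ⟶ 𝟙_ C, ∃ c : ℚ, a = c • 𝟙 (𝟙_ C))
    {M M' N N' : C} [ExactPairing M' M] [ExactPairing N' N] (h0 : ¬ Limits.IsZero (M ⊗ N))
    (h : KimuraFinite (M ⊗ N)) : KimuraFinite M ∧ KimuraFinite N :=
  kimuraFinite_of_tensor hunit (M' := M') (N' := N')
    (fun h1 => h0 ((Limits.IsZero.iff_id_eq_zero _).2 h1)) h

end Pool.Agent.MP_6e5bed_ag_OLD.TensorCancellation
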